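import Pool.Agent.Q264.WSpread
set_option autoImplicit false
open Finset Filter

/-! `liminf ξ_wsp(n)/n > 1` (MP_9978f8_co, Q1: true). -/

namespace Pool.Agent.Results.MP_9978f8_co.LiminfAboveOne

open Pool.Agent.Q264.WSpread

/-- `ξ_wsp(n)`: the minimum number of triples of a weakly spreading linear triple system with at
least two triples on an `n`-element vertex set (`∞` if there is none). -/
noncomputable def xi (n : ℕ) : ℕ∞ :=
  sInf {m : ℕ∞ | ∃ F : Finset (Finset (Fin n)), IsLinearTripleSystem F ∧ 2 ≤ #F ∧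
    IsWeaklySpreading F ∧ m = (#F : ℕ∞)}

theorem lower {V : Type*} [Fintype V] [DecidableEq V] (F : Finset (Finset V))
    (hF : IsLinearTripleSystem F) (h2 : 2 ≤ #F) (hW : IsWeaklySpreading F)
    (hn : 10 ^ 31 ≤ Fintype.card V) : (801 / 800 : ℝ) * (Fintype.card V : ℝ) ≤ (#F : ℝ) := by
  by_contra hcon
  push Not at hcon
  set n := Fintype.card V with hndef
  have hn11 : 11 ≤ n := le_trans (by norm_num) hn
  -- sizes
  have hsum := sum_dg hF
  have hn3 : n ≤ 3 * #F := by
    rw [← hsum, hndef, ← card_univ, card_eq_sum_ones]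
    exact sum_le_sum (fun v _ => dg_pos hW h2 v)
  set T : ℝ := (#F : ℝ) with hT
  have hnR : (10:ℝ) ^ 31 ≤ (n : ℝ) := by exact_mod_cast hn
  have hn3R : (n : ℝ) ≤ 3 * T := by rw [hT]; exact_mod_cast hn3
  have hTbig : (10:ℝ) ^ 30 ≤ T := by
    have : (10:ℝ)^31 = 10 * 10^30 := by norm_num
    linarith
  set s : ℝ := Real.sqrt T with hs
  have hT0 : 0 ≤ T := by linarith [pow_pos (by norm_num : (0:ℝ) < 10) 30]
  have hss : s * s = T := Real.mul_self_sqrt hT0
  have hsbig : (10:ℝ) ^ 15 ≤ s := by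
    rw [hs]
    apply Real.le_sqrt_of_sq_le
    calc ((10:ℝ) ^ 15) ^ 2 = 10 ^ 30 := by norm_num
      _ ≤ T := hTbig
  have hs0 : 0 < s := lt_of_lt_of_le (by norm_num) hsbig
  -- degree bound
  set D : ℕ := Nat.sqrt (9 * #F) with hDdef
  have hD : ∀ v, dg F v ≤ D := fun v => Nat.le_sqrt.2 (dg_sq_le hF hW (by omega) v)
  have hDD : D * D ≤ 9 * #F := Nat.sqrt_le _
  have hDDR : (D:ℝ) * D ≤ 9 * T := by rw [hT]; exact_mod_cast hDD
  have hD3 : (D:ℝ) ≤ 3 * s := by
    by_contra h
    push Not at h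
    have h1 : 3 * s * (3 * s) < (D:ℝ) * D := by
      apply mul_self_lt_mul_self (by positivity) h
    nlinarith
  -- threshold
  set k : ℝ := s / 10 ^ 10 with hk
  have hk1 : 1 < k := by
    rw [hk, lt_div_iff₀ (by positivity)]
    calc (1:ℝ) * 10 ^ 10 < 10 ^ 15 := by norm_num
      _ ≤ s := hsbig
  set N : Finset V := low F k with hN
  have hpN : pend F ⊆ N := by
    intro v hv
    rw [mem_pend] at hv
    rw [hN, mem_low, hv]
    exact_mod_cast hk1
  -- Q
  have hsumR : ∑ v, (dg F v : ℝ) = 3 * T := by rw [hT]; exact_mod_cast hsum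
  have hQ : (∑ a ∈ N, (dg F a : ℝ) * dg F a) ≤ k * (3 * T) := by
    rw [← hsumR, mul_sum]
    calc _ ≤ ∑ a ∈ N, k * (dg F a : ℝ) := by
          apply sum_le_sum
          intro a ha
          exact mul_le_mul_of_nonneg_right (mem_low.1 ha).le (by positivity)
      _ ≤ _ := by
          apply sum_le_sum_of_subset_of_nonneg (subset_univ _)
          intro a _ _
          positivity
  -- L
  set L : ℝ := (#(Lf F N) : ℝ) with hL
  have hLpairs : L * L - L ≤ 540 * (T * T) / 10 ^ 10 := by
    have h1 := card_le_card (Lf_pairs hF hW (by omega) N)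
    have h3 := card_union_le (S1 F N ∪ (S1 F N).image Prod.swap) (S2 F N ∪ (S2 F N).image Prod.swap)
    have h4 := card_union_le (S1 F N) ((S1 F N).image Prod.swap)
    have h5 := card_union_le (S2 F N) ((S2 F N).image Prod.swap)
    have h6 : #((S1 F N).image Prod.swap) ≤ #(S1 F N) := card_image_le
    have h7 : #((S2 F N).image Prod.swap) ≤ #(S2 F N) := card_image_le
    have h8 := card_S1 hF N D hD
    have h9 := card_S2 hF N D hD
    have h10 : #((Lf F N).offDiag) ≤ 60 * (D * ∑ a ∈ N, dg F a * dg F a) := by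
      have e1 : 3 * D * ∑ a ∈ N, dg F a * dg F a = 3 * (D * ∑ a ∈ N, dg F a * dg F a) := by ring
      have e2 : 27 * D * ∑ a ∈ N, dg F a * dg F a = 27 * (D * ∑ a ∈ N, dg F a * dg F a) := by ring
      rw [e1] at h8
      rw [e2] at h9
      omega
    rw [offDiag_card] at h10
    have h11 : #(Lf F N) * #(Lf F N) ≤ 60 * (D * ∑ a ∈ N, dg F a * dg F a) + #(Lf F N) := by omega
    have h12 : L * L ≤ 60 * (D * ∑ a ∈ N, (dg F a : ℝ) * dg F a) + L := by
      rw [hL]; exact_mod_cast h11
    have h13 : (D:ℝ) * ∑ a ∈ N, (dg F a : ℝ) * dg F a ≤ 3 * s * (k * (3 * T)) := by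
      apply mul_le_mul hD3 hQ _ (by positivity)
      apply sum_nonneg
      intro a _
      positivity
    have h14 : 3 * s * (k * (3 * T)) = 9 * (T * T) / 10 ^ 10 := by
      rw [hk, ← hss]; ring
    rw [h14] at h13
    have h15 : 60 * (9 * (T * T) / 10 ^ 10) = 540 * (T * T) / 10 ^ 10 := by ring
    linarith
  have hLsmall : L ≤ T / 1000 := by
    by_contra h
    push Not at h
    have h1 : 1 ≤ T / 1000 := by
      rw [le_div_iff₀ (by norm_num)]
      linarith [(by norm_num : (1000:ℝ) ≤ 10 ^ 30)]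
    have h3 : T / 1000 * (T / 1000 - 1) ≤ L * (L - 1) := by
      apply mul_le_mul h.le (by linarith) (by linarith) (by linarith)
    have h4 : (1000:ℝ) * 1000 ≤ T := le_trans (by norm_num) hTbig
    nlinarith [mul_le_mul_of_nonneg_right h4 hT0]
  -- hubs
  have hhub : (n:ℝ) - #N ≤ 3 * 10 ^ 10 * s := by
    have h1 : (#(univ \ N) : ℝ) * k ≤ 3 * T := by
      rw [← hsumR, ← nsmul_eq_mul, ← sum_const]
      calc _ ≤ ∑ v ∈ univ \ N, (dg F v : ℝ) := by
            apply sum_le_sum
            intro v hv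
            rw [Finset.mem_sdiff, hN, mem_low] at hv
            exact not_lt.1 hv.2
        _ ≤ _ := by
            apply sum_le_sum_of_subset_of_nonneg (subset_univ _)
            intro a _ _
            positivity
    have h3 : #(univ \ N) + #N = n := by
      rw [card_sdiff_add_card_eq_card (subset_univ N), card_univ]
    have h4 : (#(univ \ N) : ℝ) = n - #N := by
      have : ((#(univ \ N) + #N : ℕ) : ℝ) = (n:ℝ) := by exact_mod_cast h3
      push_cast at this
      linarith
    rw [h4, hk, mul_div_assoc', div_le_iff₀ (by positivity), ← hss] at h1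
    have h5 : ((n:ℝ) - #N) * s ≤ (3 * 10 ^ 10 * s) * s := by linarith
    exact le_of_mul_le_mul_right h5 hs0
  -- good and bad
  have hcount := count_good hF hW h2 N hpN
  have hcountR : 2 * (#N : ℝ) ≤ T + (#(good F) : ℝ) + 5 * L := by
    rw [hT, hL]; exact_mod_cast hcount
  have hgb : (#(good F) : ℝ) + (#(bad F) : ℝ) = T := by
    rw [hT]; exact_mod_cast (good_add_bad (F := F))
  have hbad : (#(bad F) : ℝ) ≤ T / 100 := by
    have h1 : T - n ≤ T / 801 := by
      rw [le_div_iff₀ (by norm_num)]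
      linarith
    have h3 : 6 * 10 ^ 10 * s ≤ T / 1000 := by
      rw [le_div_iff₀ (by norm_num), ← hss]
      have : 6 * 10 ^ 10 * s * 1000 = (6 * 10 ^ 13) * s := by ring
      rw [this]
      apply mul_le_mul_of_nonneg_right _ hs0.le
      exact le_trans (by norm_num) hsbig
    linarith
  have hpairs : (#(good F) : ℝ) * (#(good F)) - #(good F) ≤ (#(bad F) : ℝ) * (81 * T) := by
    have h1 := card_le_card (good_pairs hF hW (by omega))
    have h3 := card_S3 hF D hD
    rw [offDiag_card] at h1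
    have h4 : #(good F) * #(good F) ≤ #(bad F) * (9 * (D * D)) + #(good F) := by omega
    have h5 : #(bad F) * (9 * (D * D)) ≤ #(bad F) * (9 * (9 * #F)) :=
      Nat.mul_le_mul le_rfl (Nat.mul_le_mul le_rfl hDD)
    have h6 : #(good F) * #(good F) ≤ #(bad F) * (9 * (9 * #F)) + #(good F) := by omega
    have h7 : (#(good F) : ℝ) * (#(good F)) ≤ (#(bad F) : ℝ) * (9 * (9 * T)) + #(good F) := by
      rw [hT]; exact_mod_cast h6
    linarith
  have hgood : 99 / 100 * T ≤ (#(good F) : ℝ) := by linarith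
  have h1 : (99 / 100 * T) * (99 / 100 * T - 1) ≤ (#(good F) : ℝ) * ((#(good F) : ℝ) - 1) := by
    have : (100:ℝ) ≤ T := le_trans (by norm_num) hTbig
    apply mul_le_mul hgood (by linarith) (by linarith) (by linarith)
  have h3 : (#(bad F) : ℝ) * (81 * T) ≤ T / 100 * (81 * T) :=
    mul_le_mul_of_nonneg_right hbad (by positivity)
  have h4 : (100:ℝ) ≤ T := le_trans (by norm_num) hTbig
  nlinarith [mul_le_mul_of_nonneg_right h4 hT0]

/-- `liminf_{n → ∞} ξ_wsp(n)/n ≥ 801/800 > 1`. -/
theorem result : (801 / 800 : ENNReal) ≤ liminf (fun n : ℕ => ((xi n : ℕ∞) : ENNReal) / (n : ENNReal)) atTop := by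
  apply le_liminf_of_le
  · isBoundedDefault
  · filter_upwards [eventually_ge_atTop (10 ^ 31)] with n hn
    have hn0 : (n : ENNReal) ≠ 0 := by
      have : n ≠ 0 := by
        rintro rfl
        norm_num at hn
      exact_mod_cast this
    rw [ENNReal.le_div_iff_mul_le (Or.inl hn0) (Or.inl (ENNReal.natCast_ne_top n))]
    -- it suffices to bound every member
    have hmem : ∀ F : Finset (Finset (Fin n)), IsLinearTripleSystem F → 2 ≤ #F →
        IsWeaklySpreading F → 801 * n ≤ 800 * #F := by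
      intro F hF h2 hW
      have := lower F hF h2 hW (by simpa using hn)
      rw [Fintype.card_fin] at this
      have h3 : (801:ℝ) * n ≤ 800 * #F := by linarith
      exact_mod_cast h3
    have key : ∀ m : ℕ∞, (∃ F : Finset (Finset (Fin n)), IsLinearTripleSystem F ∧ 2 ≤ #F ∧
        IsWeaklySpreading F ∧ m = (#F : ℕ∞)) → (801 / 800 : ENNReal) * n ≤ (m : ENNReal) := by
      rintro m ⟨F, hF, h2, hW, rfl⟩
      have h3 := hmem F hF h2 hW
      have h4 : (801 : ENNReal) * n ≤ 800 * (#F : ENNReal) := by exact_mod_cast h3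
      have h5 : (801 / 800 : ENNReal) * n = (801 * n) / 800 := by
        rw [ENNReal.div_eq_inv_mul, ENNReal.div_eq_inv_mul, mul_assoc]
      rw [h5]
      apply ENNReal.div_le_of_le_mul
      rw [mul_comm ((#F : ℕ∞) : ENNReal) 800]
      simpa using h4
    -- the infimum is attained or the set is empty
    by_cases hne : {m : ℕ∞ | ∃ F : Finset (Finset (Fin n)), IsLinearTripleSystem F ∧ 2 ≤ #F ∧
        IsWeaklySpreading F ∧ m = (#F : ℕ∞)}.Nonempty
    · exact key _ (csInf_mem hne)
    · have : xi n = ⊤ := by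
        unfold xi
        rw [Set.not_nonempty_iff_eq_empty.1 hne, sInf_empty]
      rw [this]
      simp

end Pool.Agent.Results.MP_9978f8_co.LiminfAboveOne
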